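import Pool.Agent.Helper58.DP.Def
import Pool.Agent.Helper12.DT.I0

/-!
# Swarm DP, part I, over `k`
-/

set_option autoImplicit false
set_option linter.unusedSectionVars false

open Polynomial Finset DirectSum

namespace Pool.Agent.Helper27.DP

open Pool.Agent.Helper766_CF Pool.Agent.Helper766_CG Pool.Agent.Helper766_CH
open Pool.Agent.Helper58.CS Pool.Agent.Helper58.OP Pool.Agent.Helper58.SH Pool.Agent.Helper58.BG
open Pool.Agent.Helper58.LC Pool.Agent.Helper58.NS Pool.Agent.Helper58.DP

/-- Linear forms with a nonzero minor are algebraically independent. -/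
lemma forms_inj {k : Type} [Field k] {N M : ℕ} (A : Matrix (Fin M) (Fin N) k) (e : Fin M → Fin N)
    (hdet : (A.submatrix id e).det ≠ 0) :
    Function.Injective (MvPolynomial.aeval (R := k) fun l : Fin M =>
      ∑ m, MvPolynomial.C (A l m) * (MvPolynomial.X m : MvPolynomial (Fin N) k)) := by
  classical
  set B := A.submatrix id e with hB
  have he : Function.Injective e := by
    intro i j hij
    by_contra hne
    apply hdet
    refine Matrix.det_zero_of_column_eq hne fun l => ?_
    simp [hB, hij]
  let ψ : MvPolynomial (Fin N) k →ₐ[k] MvPolynomial (Fin M) k :=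
    MvPolynomial.aeval fun m => ∑ j, if e j = m then ∑ i, MvPolynomial.C (B⁻¹ j i) * MvPolynomial.X i
      else 0
  have hcomp : ψ.comp (MvPolynomial.aeval (R := k) fun l : Fin M =>
      ∑ m, MvPolynomial.C (A l m) * (MvPolynomial.X m : MvPolynomial (Fin N) k)) =
      AlgHom.id k _ := by
    apply MvPolynomial.algHom_ext
    intro l
    rw [AlgHom.comp_apply, MvPolynomial.aeval_X, map_sum, AlgHom.id_apply]
    have h1 : ∀ m, ψ (MvPolynomial.C (A l m) * MvPolynomial.X m) =
        ∑ j, if e j = m then MvPolynomial.C (A l m) *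
          ∑ i, MvPolynomial.C (B⁻¹ j i) * MvPolynomial.X i else 0 := by
      intro m
      rw [map_mul, MvPolynomial.aeval_X]
      have h2 : ψ (MvPolynomial.C (A l m)) = MvPolynomial.C (A l m) := by
        rw [MvPolynomial.aeval_C]
        rfl
      rw [h2, Finset.mul_sum]
      refine Finset.sum_congr rfl fun j _ => ?_
      split_ifs
      · rfl
      · rw [mul_zero]
    rw [Finset.sum_congr rfl fun m _ => h1 m, Finset.sum_comm]
    have h3 : ∀ j, (∑ m, if e j = m then MvPolynomial.C (A l m) *
        ∑ i, MvPolynomial.C (B⁻¹ j i) * (MvPolynomial.X i : MvPolynomial (Fin M) k) else 0) =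
        ∑ i, MvPolynomial.C (B l j * B⁻¹ j i) * MvPolynomial.X i := by
      intro j
      rw [Finset.sum_ite_eq, if_pos (Finset.mem_univ _), Finset.mul_sum]
      refine Finset.sum_congr rfl fun i _ => ?_
      rw [map_mul, mul_assoc]
      rfl
    rw [Finset.sum_congr rfl fun j _ => h3 j, Finset.sum_comm]
    have h4 : ∀ i, ∑ j, MvPolynomial.C (B l j * B⁻¹ j i) *
        (MvPolynomial.X i : MvPolynomial (Fin M) k) =
        MvPolynomial.C ((1 : Matrix (Fin M) (Fin M) k) l i) * MvPolynomial.X i := by
      intro i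
      rw [← Finset.sum_mul, ← map_sum, ← Matrix.mul_apply,
        Matrix.mul_nonsing_inv _ (isUnit_iff_ne_zero.2 hdet)]
    rw [Finset.sum_congr rfl fun i _ => h4 i, Finset.sum_eq_single l]
    · rw [Matrix.one_apply_eq, map_one, one_mul]
    · intro i _ hi
      rw [Matrix.one_apply_ne hi.symm, map_zero, zero_mul]
    · intro h
      exact absurd (Finset.mem_univ _) h
  intro p q hpq
  have := congrArg ψ hpq
  rw [← AlgHom.comp_apply, ← AlgHom.comp_apply, hcomp] at this
  exact this

/-- I. The generic direction has as many parameters as possible. -/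
theorem indep {k : Type} [Field k] [Algebra ℂ k] {N M : ℕ} (A : Matrix (Fin M) (Fin N) k)
    (e : Fin M → Fin N)
    (hdet : (A.submatrix id e).det ≠ 0) (c : Fin M → k) (y : Fin M → PowerSeries (Kl k N))
    (h0 : ∀ l, PowerSeries.coeff 0 (y l) = algebraMap k (Kl k N) (c l))
    (h1 : ∀ l, PowerSeries.coeff 1 (y l) = ∑ m, pl k m * algebraMap k (Kl k N) (A l m)) :
    AlgebraicIndependent ℂ fun l => algebraMap (PowerSeries (Kl k N)) (Kc (Kl k N)) (y l) := by
  classical
  have hinj1 : Function.Injective (algebraMap (MvPolynomial (Fin N) k) (Kl k N)) := by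
    rw [IsScalarTower.algebraMap_eq (MvPolynomial (Fin N) k)
      (FractionRing (MvPolynomial (Fin N) k)) (Kl k N)]
    exact (algebraMap (FractionRing (MvPolynomial (Fin N) k)) (Kl k N)).injective.comp
      (IsFractionRing.injective _ _)
  have hinj2 : Function.Injective (algebraMap (PowerSeries (Kl k N)) (Kc (Kl k N))) := by
    rw [IsScalarTower.algebraMap_eq (PowerSeries (Kl k N))
      (FractionRing (PowerSeries (Kl k N))) (Kc (Kl k N))]
    exact (algebraMap (FractionRing (PowerSeries (Kl k N))) (Kc (Kl k N))).injective.comp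
      (IsFractionRing.injective _ _)
  let j : k →ₐ[ℂ] Kl k N := IsScalarTower.toAlgHom ℂ k (Kl k N)
  let s : Fin M → Kl k N := fun l => ∑ m, pl k m * algebraMap k (Kl k N) (A l m)
  have hs : ∀ P : MvPolynomial (Fin M) k, P ≠ 0 → P.eval₂ (j : k →+* Kl k N) s ≠ 0 := by
    intro P hP h
    apply hP
    apply forms_inj A e hdet
    rw [map_zero]
    apply hinj1
    rw [map_zero, ← h, MvPolynomial.aeval_def, MvPolynomial.hom_eval₂]
    congr 1
    funext l
    change algebraMap (MvPolynomial (Fin N) k) (Kl k N) (∑ m, MvPolynomial.C (A l m) *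
      MvPolynomial.X m) = ∑ m, pl k m * algebraMap k (Kl k N) (A l m)
    rw [map_sum]
    refine Finset.sum_congr rfl fun m _ => ?_
    rw [map_mul, mul_comm]
    rfl
  have h2 := Pool.Agent.Helper12.DT.indep_series j hs c (1 : Matrix (Fin M) (Fin M) k)
    (by rw [Matrix.det_one]; exact one_ne_zero) y h0 (by
      intro i
      rw [h1, Finset.sum_eq_single i]
      · rw [Matrix.one_apply_eq, map_one, one_mul]
      · intro l _ hl
        rw [Matrix.one_apply_ne hl.symm, map_zero, zero_mul]
      · intro h
        exact absurd (Finset.mem_univ _) h)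
  exact h2.map' (f := IsScalarTower.toAlgHom ℂ (PowerSeries (Kl k N)) (Kc (Kl k N))) hinj2

end Pool.Agent.Helper27.DP
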